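import Pool.Agent.H5.FR2.Stmts

set_option autoImplicit false

namespace Pool.Agent.H5.FR2

open Finset Pool.Agent.H5.FR Pool.Agent.H80
open scoped ComplexOrder

namespace RNK

lemma pq_swap (W : ℝ) : ∀ (d : ℕ) (ξ η : Fin d → ℝ),
    (pq W d η ξ).1 = (pq W d ξ η).2 ∧ (pq W d η ξ).2 = (pq W d ξ η).1 := by
  intro d
  induction d with
  | zero => intro ξ η; exact ⟨rfl, rfl⟩
  | succ d ih =>
    intro ξ η
    obtain ⟨h1, h2⟩ := ih (fun i => ξ i.castSucc) (fun i => η i.castSucc)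
    simp only [pq]
    rw [h1, h2]
    exact ⟨rfl, rfl⟩

lemma tr2_nonneg {Z : Type} [Fintype Z] [DecidableEq Z] (K : Matrix Z Z ℂ)
    (hK : K.conjTranspose = K) : 0 ≤ tr2 K := by
  unfold tr2
  have h1 : K * K = K * K.conjTranspose := by rw [hK]
  rw [h1]
  have h2 := (Matrix.posSemidef_self_mul_conjTranspose K).trace_nonneg
  exact (Complex.le_def.1 h2).1

lemma KK_herm {n : ℕ} {X Y : Type} [Fintype X] [Fintype Y] (B : Fin n → Matrix X Y ℂ) :
    (KK B).conjTranspose = KK B := by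
  unfold KK
  rw [Matrix.conjTranspose_sum]
  exact Finset.sum_congr rfl fun a _ => by
    rw [Matrix.conjTranspose_mul, Matrix.conjTranspose_conjTranspose]

lemma LL_herm {n : ℕ} {X Y : Type} [Fintype X] [Fintype Y] (B : Fin n → Matrix X Y ℂ) :
    (LL B).conjTranspose = LL B := by
  unfold LL
  rw [Matrix.conjTranspose_sum]
  exact Finset.sum_congr rfl fun a _ => by
    rw [Matrix.conjTranspose_mul, Matrix.conjTranspose_conjTranspose]

lemma rank_of (hRKT : RKTStmt) (X Y : Type) [Fintype X] [DecidableEq X] [Fintype Y]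
    [DecidableEq Y] (M : Matrix X Y ℂ) (m : ℕ) (hm : 0 < m)
    (h : tr2 (M * M.conjTranspose) < 3 / (m : ℝ) * tr1 (M * M.conjTranspose) ^ 2) :
    m ≤ 3 * M.rank := by
  have h1 := hRKT X Y M
  have h2 : 0 ≤ tr2 (M * M.conjTranspose) := tr2_nonneg _ (by
    rw [Matrix.conjTranspose_mul, Matrix.conjTranspose_conjTranspose])
  have hm' : (0 : ℝ) < m := by exact_mod_cast hm
  have h3 : 0 < tr1 (M * M.conjTranspose) ^ 2 := by
    by_contra hcon
    have h0 : tr1 (M * M.conjTranspose) ^ 2 = 0 := le_antisymm (not_lt.1 hcon) (sq_nonneg _)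
    rw [h0, mul_zero] at h
    linarith
  have hr : (0 : ℝ) ≤ M.rank := Nat.cast_nonneg _
  have h4 : tr1 (M * M.conjTranspose) ^ 2 ≤
      (M.rank : ℝ) * (3 / (m : ℝ)) * tr1 (M * M.conjTranspose) ^ 2 := by
    nlinarith [mul_le_mul_of_nonneg_left h.le hr]
  have h5 : 1 ≤ (M.rank : ℝ) * (3 / (m : ℝ)) := by
    by_contra h6
    push Not at h6
    nlinarith
  have h6 : (m : ℝ) ≤ 3 * M.rank := by
    rw [mul_div_assoc', le_div_iff₀ hm'] at h5
    linarith
  exact_mod_cast h6

theorem rank_zero (n W : ℕ) (X Y : Fin 0 → Type) [∀ i, Fintype (X i)]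
    [∀ i, DecidableEq (X i)] [∀ i, Fintype (Y i)] [∀ i, DecidableEq (Y i)]
    (B : ∀ i, Fin n → Matrix (X i) (Y i) ℂ)
    (g : Fin 0 → Fin (W + 1) → Fin n → Fin (W + 1) → ℂ) :
    1 ≤ (tt 0 X Y B g 0).rank := by
  rw [Nat.one_le_iff_ne_zero]
  intro h
  have h1 : tt 0 X Y B g 0 = 0 := by
    unfold Matrix.rank at h
    have h' := Submodule.finrank_eq_zero.1 h
    rw [LinearMap.range_eq_bot] at h'
    ext p q
    have h2 := congrFun (congrArg (fun f => f (Pi.single q 1)) h') p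
    simpa using h2
  have h2 := congrFun (congrFun h1 (fun i => i.elim0)) (fun i => i.elim0)
  simp [tt] at h2

end RNK

theorem rnk_thm (hSCL : SCLStmt) (hRKT : RKTStmt) (hFIN : FINStmt) (hTTN : TTNStmt) (hKRA : KRAStmt)
    (hCOE : COEStmt) : RNKStmt := by
  intro n W d X Y _ _ _ _ _ _ B hB E hE hW hbal
  rcases d with _ | d
  · refine ⟨fun i => i.elim0, ?_⟩
    have h1 := RNK.rank_zero n W X Y B (fun i => i.elim0)
    have h2 : min (∏ i, Fintype.card (X i)) (∏ i, Fintype.card (Y i)) ≤ 1 := by simp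
    omega
  have hd : (0 : ℝ) < 1 / (8 * (((d + 1 : ℕ) : ℝ))) := by positivity
  have hs : ∀ i, _ := fun i => hSCL n (X i) (Y i) (B i) (hB i) (1 / (8 * (((d + 1 : ℕ) : ℝ)))) hd
  choose P Q hP hQ h1 h2 h3 using hs
  set A : ∀ i, Fin n → Matrix (X i) (Y i) ℂ := fun i a => P i * B i a * Q i with hA
  have hx : ∀ i, (0 : ℝ) < Fintype.card (X i) := fun i => by exact_mod_cast Fintype.card_pos
  have hy : ∀ i, (0 : ℝ) < Fintype.card (Y i) := fun i => by exact_mod_cast Fintype.card_pos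
  have hxi : ∀ i, 0 ≤ tr2 (KK (A i)) := fun i => RNK.tr2_nonneg _ (RNK.KK_herm _)
  have heta : ∀ i, 0 ≤ tr2 (LL (A i)) := fun i => RNK.tr2_nonneg _ (RNK.LL_herm _)
  -- the rank is invariant
  have hinv : ∀ g : Fin (d + 1) → Fin (W + 1) → Fin n → Fin (W + 1) → ℂ,
      (tt (d + 1) X Y A g 0).rank = (tt (d + 1) X Y B g 0).rank := by
    intro g
    obtain ⟨w, hw⟩ := hCOE (d + 1) n W univ 1 (fun t _ => Finset.mem_univ _) g
    have e1 : app A (QQ univ w (d + 1) univ 0) = tt (d + 1) X Y A g 0 := by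
      funext p q
      exact hw X Y A p q
    have e2 : app B (QQ univ w (d + 1) univ 0) = tt (d + 1) X Y B g 0 := by
      funext p q
      exact hw X Y B p q
    rw [← e1, ← e2]
    exact hKRA (d + 1) n X Y B P Q hP hQ _
  have key : ∀ m : ℕ, 0 < m →
      (tr2 (KK (A (Fin.last d))) * (pq ((W : ℝ) + 1) d (fun i => tr2 (KK (A i.castSucc)))
        (fun i => tr2 (LL (A i.castSucc)))).1 +
      tr2 (LL (A (Fin.last d))) * (pq ((W : ℝ) + 1) d (fun i => tr2 (KK (A i.castSucc)))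
        (fun i => tr2 (LL (A i.castSucc)))).2) * m < 3 * ((((W : ℝ) + 1) ^ d)) ^ 2 →
      ∃ g : Fin (d + 1) → Fin (W + 1) → Fin n → Fin (W + 1) → ℂ,
        m ≤ 3 * (tt (d + 1) X Y B g 0).rank := by
    intro m hm h
    have hm' : (0 : ℝ) < m := by exact_mod_cast hm
    obtain ⟨g, hg⟩ := hFIN n W d X Y A h1 (3 / m) (by positivity) (by
      rw [div_mul_eq_mul_div, lt_div_iff₀ hm']
      exact h)
    refine ⟨g, ?_⟩
    rw [← hinv g]
    exact RNK.rank_of hRKT _ _ _ m hm hg
  rcases hbal with hbal | hbal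
  · have h := hTTN d ((W : ℝ) + 1) E (fun i => (Fintype.card (X i) : ℝ))
      (fun i => (Fintype.card (Y i) : ℝ)) (fun i => tr2 (KK (A i))) (fun i => tr2 (LL (A i)))
      hx hy hxi heta (fun i => by have := h2 i; push_cast at this; exact this)
      (fun i => by have := h3 i; push_cast at this; exact this) hE (by push_cast at hW; exact hW)
      hbal
    obtain ⟨g, hg⟩ := key (∏ i, Fintype.card (Y i)) (Finset.prod_pos fun i _ => Fintype.card_pos)
      (by push_cast; exact h)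
    exact ⟨g, (min_le_right _ _).trans hg⟩
  · have h := hTTN d ((W : ℝ) + 1) E (fun i => (Fintype.card (Y i) : ℝ))
      (fun i => (Fintype.card (X i) : ℝ)) (fun i => tr2 (LL (A i))) (fun i => tr2 (KK (A i)))
      hy hx heta hxi (fun i => by have := h3 i; push_cast at this; exact this)
      (fun i => by have := h2 i; push_cast at this; exact this) hE (by push_cast at hW; exact hW)
      hbal
    obtain ⟨p1, p2⟩ := RNK.pq_swap ((W : ℝ) + 1) d (fun i => tr2 (KK (A i.castSucc)))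
      (fun i => tr2 (LL (A i.castSucc)))
    rw [p1, p2] at h
    obtain ⟨g, hg⟩ := key (∏ i, Fintype.card (X i)) (Finset.prod_pos fun i _ => Fintype.card_pos)
      (by push_cast; rw [add_comm]; exact h)
    exact ⟨g, (min_le_left _ _).trans hg⟩

end Pool.Agent.H5.FR2
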